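import Mathlib

/-!
# Quasi-automatic and automatic semigroups: the decision problem of MP_567c26_al, Q1

Words over an alphabet `A` are lists. For a map `g : A → S` into a semigroup, `Val g u s` says that
the word `u` is nonempty and its letters multiply to `s`.
-/

namespace Pool.Agent.Work.MP_567c26_al

/-- The word `u` is nonempty and has value `s` under `g`. -/
def Val {A S : Type} [Semigroup S] (g : A → S) (u : List A) (s : S) : Prop :=
  ∃ a l, u = a :: l ∧ l.foldl (fun x b => x * g b) (g a) = s

/-! ## Synchronously automatic semigroups -/

/-- The padded word of a pair of words: the `i`-th letter is the pair of the `i`-th letters, a word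
which is too short is filled up on the right with the padding symbol `none`. -/
def pad {A : Type} (u v : List A) : List (Option A × Option A) :=
  (List.range (max u.length v.length)).map fun i => (u[i]?, v[i]?)

/-- The padded language `δ(R_L)` of the equality relation on `L`. -/
def eqLang {A S : Type} [Semigroup S] (g : A → S) (L : Language A) :
    Language (Option A × Option A) :=
  {w | ∃ u ∈ L, ∃ v ∈ L, (∃ s, Val g u s ∧ Val g v s) ∧ w = pad u v}

/-- The padded language `δ(R_{L,a})` of the right multiplication by the letter `a` on `L`. -/
def mulLang {A S : Type} [Semigroup S] (g : A → S) (L : Language A) (a : A) :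
    Language (Option A × Option A) :=
  {w | ∃ u ∈ L, ∃ v ∈ L, (∃ s, Val g u s ∧ Val g v (s * g a)) ∧ w = pad u v}

/-- `(A, g, L)` is a synchronous automatic structure of `S`: `A` is a finite set of elements of `S`
(embedded by `g`), `L` is a rational language of nonempty words representing every element, and the
padded languages of the equality relation and of the right multiplication by each letter are
rational. -/
structure SyncStructure {A : Type} [Fintype A] (S : Type) [Semigroup S] (g : A → S)
    (L : Language A) : Prop where
  inj : Function.Injective g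
  reg : L.IsRegular
  ne : [] ∉ L
  surj : ∀ s : S, ∃ u ∈ L, Val g u s
  eq : (eqLang g L).IsRegular
  mul : ∀ a, (mulLang g L a).IsRegular

/-- `S` is synchronously automatic. -/
def SyncAutomatic (S : Type) [Semigroup S] : Prop :=
  ∃ (A : Type) (_ : Fintype A) (g : A → S) (L : Language A), SyncStructure S g L

/-! ## Inputs: quasi-automatic structures as finite data -/

/-- A finite automaton with states and letters numbered by natural numbers: initial states, final
states, transitions. -/
abbrev Aut1 := List ℕ × List ℕ × List (ℕ × ℕ × ℕ)

/-- A finite two-tape automaton: initial states, final states, transitions labelled by pairs of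
words. -/
abbrev Aut2 := List ℕ × List ℕ × List (ℕ × (List ℕ × List ℕ) × ℕ)

/-- Paths in a finite automaton. -/
inductive Path1 (T : List (ℕ × ℕ × ℕ)) : ℕ → List ℕ → ℕ → Prop
  | nil (p : ℕ) : Path1 T p [] p
  | cons {p q r a : ℕ} {w : List ℕ} : (p, a, q) ∈ T → Path1 T q w r → Path1 T p (a :: w) r

/-- Paths in a two-tape automaton. -/
inductive Path2 (T : List (ℕ × (List ℕ × List ℕ) × ℕ)) : ℕ → List ℕ → List ℕ → ℕ → Prop
  | nil (p : ℕ) : Path2 T p [] [] p
  | cons {p q r : ℕ} {x y u v : List ℕ} : (p, (x, y), q) ∈ T → Path2 T q u v r →
      Path2 T p (x ++ u) (y ++ v) r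

/-- The language recognized by a finite automaton. -/
def Acc1 (M : Aut1) (w : List ℕ) : Prop := ∃ p ∈ M.1, ∃ q ∈ M.2.1, Path1 M.2.2 p w q

/-- The rational relation recognized by a two-tape automaton. -/
def Acc2 (M : Aut2) (u v : List ℕ) : Prop := ∃ p ∈ M.1, ∃ q ∈ M.2.1, Path2 M.2.2 p u v q

/-- An input: the number `k` of letters (the letters are `0, ..., k-1`), an automaton for `L`, a
two-tape automaton for `R_L`, and the list of the two-tape automata for the `R_{L,a}`, `a < k`. -/
abbrev Input := ℕ × Aut1 × Aut2 × List Aut2

/-- The input `I` is a quasi-automatic structure of the semigroup `S`, the letter `a < k` standing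
for the element `g a`. -/
structure IsStructure (I : Input) (S : Type) [Semigroup S] (g : ℕ → S) : Prop where
  inj : ∀ a < I.1, ∀ b < I.1, g a = g b → a = b
  letters : ∀ w, Acc1 I.2.1 w → w ≠ [] ∧ ∀ a ∈ w, a < I.1
  surj : ∀ s : S, ∃ w, Acc1 I.2.1 w ∧ Val g w s
  eq : ∀ u v, Acc2 I.2.2.1 u v ↔ Acc1 I.2.1 u ∧ Acc1 I.2.1 v ∧ ∃ s, Val g u s ∧ Val g v s
  len : I.2.2.2.length = I.1
  mul : ∀ a < I.1, ∀ u v, Acc2 (I.2.2.2.getD a ([], [], [])) u v ↔
    Acc1 I.2.1 u ∧ Acc1 I.2.1 v ∧ ∃ s, Val g u s ∧ Val g v (s * g a)

/-- Q1 has a positive answer: some algorithm (a partial recursive function `D`) halts on every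
input which is a quasi-automatic structure of a semigroup `S`, and tells whether `S` is
synchronously automatic. (Nothing is required on the inputs which are not quasi-automatic
structures, the algorithm need not halt on them.) -/
def Decidable1 : Prop :=
  ∃ D : Input →. Bool, Partrec D ∧ ∀ (I : Input) (S : Type) [Semigroup S] (g : ℕ → S),
    IsStructure I S g → ∃ b ∈ D I, (b = true ↔ SyncAutomatic S)

end Pool.Agent.Work.MP_567c26_al
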